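import Pool.Agent.W2helper14.SH.E

set_option autoImplicit false

/-!
# The Hardy-Littlewood formula in short intervals in the random sieve model of Banks, Ford and Tao

For every prime `w` a residue class `a w` modulo `w` is chosen uniformly and independently. The random
set `R` consists of the natural numbers `n ≥ e ^ 2` which avoid the class `a w` for every prime `w` with
`∏_(v ≤ w) (1 - 1 / v) ≥ 1 / log n`; this is the random sieve model for the primes of Banks, Ford and
Tao, in which the classes `0 mod w` of the sieve of Eratosthenes are replaced by random ones.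

We prove that almost surely the Hardy-Littlewood formula for twins, and for all tuples, holds in every
interval `(y, y + H]` with `H ≥ y ^ δ`, for every `δ > 0`, `y` large, with the relative error
`O((log y) ^ (- U))` for every `U`.

The engine is the exponential moment method of helper64 (`W2helper64.BH`, `W2helper64.GB`).
-/

namespace Pool.Agent.W2helper14.Kept.RandomSieveShortAsymptotics

open Filter MeasureTheory Topology

/-- the product `V y = ∏_(w ≤ y, w prime) (1 - 1 / w)` -/
noncomputable def V (y : ℕ) : ℝ := ∏ w ∈ (Finset.Icc 1 y).filter Nat.Prime, (1 - 1 / (w : ℝ))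

/-- the random set: all `n ≥ e ^ 2` outside the chosen class `a w` for every prime `w` with
`V w ≥ 1 / log n` -/
def R (a : (w : Nat.Primes) → ZMod (w : ℕ)) : Set ℕ :=
  {n | Real.exp 2 ≤ n ∧ ∀ w : Nat.Primes, 1 ≤ V (w : ℕ) * Real.log n → ((n : ℕ) : ZMod (w : ℕ)) ≠ a w}

/-- the chosen classes `a w`, `w` prime, are independent and uniform modulo `w` -/
noncomputable def law : Measure ((w : Nat.Primes) → ZMod (w : ℕ)) :=
  Measure.infinitePi fun w : Nat.Primes => ProbabilityTheory.uniformOn (Set.univ : Set (ZMod (w : ℕ)))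

/-- the constant `C_2 = ∏_(p > 2) (1 - 1 / (p - 1) ^ 2)` -/
noncomputable def twinConstant : ℝ :=
  ∏' p : {p : ℕ // p.Prime ∧ 2 < p}, (1 - 1 / (((p : ℕ) : ℝ) - 1) ^ 2)

/-- the number of the `y < n ≤ y + H` with `n, n + 2 ∈ R` -/
noncomputable def twins (a : (w : Nat.Primes) → ZMod (w : ℕ)) (y H : ℕ) : ℕ :=
  {n : ℕ | y < n ∧ n ≤ y + H ∧ n ∈ R a ∧ n + 2 ∈ R a}.ncard

open Classical in
/-- the number of the residue classes modulo `w` met by the shifts `h i` -/
noncomputable def classes {g : ℕ} (h : Fin g → ℕ) (w : Nat.Primes) : ℕ :=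
  (Finset.univ.image fun i => ((h i : ℕ) : ZMod (w : ℕ))).card

/-- the product of `(1 - classes / w) / (1 - 1 / w) ^ g` over the primes `w ≤ z` -/
noncomputable def series {g : ℕ} (h : Fin g → ℕ) (z : ℕ) : ℝ :=
  ∏ w ∈ (Finset.Icc 1 z).subtype Nat.Prime, (1 - (classes h w : ℝ) / (w : ℕ)) / (1 - 1 / ((w : ℕ) : ℝ)) ^ g

/-- the number of the `y < n ≤ y + H` with all `n + h i ∈ R` -/
noncomputable def count {g : ℕ} (a : (w : Nat.Primes) → ZMod (w : ℕ)) (h : Fin g → ℕ) (y H : ℕ) : ℕ :=
  {n : ℕ | y < n ∧ n ≤ y + H ∧ ∀ i, n + h i ∈ R a}.ncard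

/-- the sum of `∏_i 1 / log (n + h i)` over the `y < n ≤ y + H` -/
noncomputable def main {g : ℕ} (h : Fin g → ℕ) (y H : ℕ) : ℝ :=
  ∑ n ∈ Finset.Ioc y (y + H), ∏ i, 1 / Real.log ((n : ℝ) + h i)

/-- Almost surely: for all `δ > 0` and `U`, all large `y` and all `H ≥ y ^ δ`, the number of the
`y < n ≤ y + H` with `n, n + 2 ∈ R` differs from `2 C_2 ∑_(y < n ≤ y + H) 1 / (log n log (n + 2))` by at most
`H / (log (y + H)) ^ U`; and the same for every tuple of distinct shifts `h 1, ..., h g` in place of `0, 2`, with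
the limit `S` of `series h`, which is positive if and only if `h` is admissible, in place of `2 C_2`. -/
theorem result : ∀ᵐ a ∂law,
    (∀ δ : ℝ, 0 < δ → ∀ U : ℕ, ∀ᶠ y : ℕ in atTop, ∀ H : ℕ, (y : ℝ) ^ δ ≤ H →
      |(twins a y H : ℝ) -
        2 * twinConstant * ∑ n ∈ Finset.Ioc y (y + H), 1 / (Real.log n * Real.log ((n : ℝ) + 2))| ≤
          H / Real.log ((y : ℝ) + H) ^ U) ∧
    ∀ (g : ℕ) (h : Fin g → ℕ), Function.Injective h →
      ∃ S : ℝ, 0 ≤ S ∧ Tendsto (series h) atTop (𝓝 S) ∧ (0 < S ↔ ∀ w : Nat.Primes, classes h w < (w : ℕ)) ∧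
        ∀ δ : ℝ, 0 < δ → ∀ U : ℕ, ∀ᶠ y : ℕ in atTop, ∀ H : ℕ, (y : ℝ) ^ δ ≤ H →
          |(count a h y H : ℝ) - S * main h y H| ≤ H / Real.log ((y : ℝ) + H) ^ U :=
  Pool.Agent.W2helper14.SH.short_ae

end Pool.Agent.W2helper14.Kept.RandomSieveShortAsymptotics
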