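import Pool.Agent.W2helper14.RB.Sqp

set_option autoImplicit false

/-!
# A square plus an element of the random sieve model of Banks, Ford and Tao

For every prime `w` a residue class `a w` modulo `w` is chosen uniformly and independently. The random
set `R` consists of the natural numbers `n ≥ e ^ 2` which avoid the class `a w` for every prime `w` with
`∏_(v ≤ w) (1 - 1 / v) ≥ 1 / log n`; this is the random sieve model for the primes of Banks, Ford and
Tao, in which the classes `0 mod w` of the sieve of Eratosthenes are replaced by random ones.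

We prove that almost surely every large `n` is the sum of a square and an element of `R`, and that the root of
the square can be taken in every interval `(y, y + (log n) ^ C]` with `(y + (log n) ^ C) ^ 2 ≤ n - 8`.

The engine is helper64's theorem `law_engine` on the survivors of admissible random sieves.
-/

namespace Pool.Agent.Results.MP_83819a_nt.RandomSieveSquarePlus

open Filter MeasureTheory

/-- the product `V y = ∏_(w ≤ y, w prime) (1 - 1 / w)` -/
noncomputable def V (y : ℕ) : ℝ := ∏ w ∈ (Finset.Icc 1 y).filter Nat.Prime, (1 - 1 / (w : ℝ))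

/-- the random set: all `n ≥ e ^ 2` outside the chosen class `a w` for every prime `w` with
`V w ≥ 1 / log n` -/
def R (a : (w : Nat.Primes) → ZMod (w : ℕ)) : Set ℕ :=
  {n | Real.exp 2 ≤ n ∧ ∀ w : Nat.Primes, 1 ≤ V (w : ℕ) * Real.log n → ((n : ℕ) : ZMod (w : ℕ)) ≠ a w}

/-- the chosen classes `a w`, `w` prime, are independent and uniform modulo `w` -/
noncomputable def law : Measure ((w : Nat.Primes) → ZMod (w : ℕ)) :=
  Measure.infinitePi fun w : Nat.Primes => ProbabilityTheory.uniformOn (Set.univ : Set (ZMod (w : ℕ)))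

/-- There is an absolute constant `C ≥ 2` such that almost surely, for all sufficiently large `n` and all `y ≥ 0`
with `(y + (log n) ^ C) ^ 2 + 8 ≤ n`, there is some `m` with `y < m ≤ y + (log n) ^ C`, `m ^ 2 ≤ n` and
`n - m ^ 2 ∈ R`. -/
theorem result : ∃ C : ℝ, 2 ≤ C ∧ ∀ᵐ a ∂law, ∀ᶠ n : ℕ in atTop, ∀ y : ℕ,
    ((y : ℝ) + Real.log n ^ C) ^ 2 + 8 ≤ n →
      ∃ m : ℕ, y < m ∧ (m : ℝ) ≤ y + Real.log n ^ C ∧ m ^ 2 ≤ n ∧ n - m ^ 2 ∈ R a :=
  Pool.Agent.W2helper14.RB.ae_sqp

end Pool.Agent.Results.MP_83819a_nt.RandomSieveSquarePlus
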